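import Pool.Agent.Y690.PP.Stm

/-!
# Project PP: positive density of the squarefree elements
-/

set_option autoImplicit false

open Finset

namespace Pool.Agent.Y954.PP

open Pool.Agent.Y690.PP

theorem nm_mul (a b : G) : nm (a * b) = nm a * nm b := by
  simp [nm, Zsqrtd.norm_mul, Int.natAbs_mul]

theorem nm_one : nm 1 = 1 := by
  simp [nm]

theorem nm_cast (a : G) : (nm a : ℤ) = a.re ^ 2 + a.im ^ 2 := by
  have h : a.norm = a.re ^ 2 + a.im ^ 2 := by
    rw [Zsqrtd.norm_def]; ring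
  rw [nm, h]
  exact Int.natAbs_of_nonneg (by positivity)

theorem nm_castR (a : G) : (nm a : ℝ) = (a.re : ℝ) ^ 2 + (a.im : ℝ) ^ 2 := by
  have := nm_cast a
  have h2 : ((nm a : ℤ) : ℝ) = ((a.re ^ 2 + a.im ^ 2 : ℤ) : ℝ) := by rw [this]
  push_cast at h2
  exact h2

theorem nm_prod (A : Finset Pr) : nm (∏ p ∈ A, p.1) = NN gN A := by
  classical
  induction A using Finset.induction_on with
  | empty => simp [nm_one, NN]
  | insert p A hp ih =>
    rw [Finset.prod_insert hp, nm_mul, ih, NN, NN, Finset.prod_insert hp, gN]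

/-- the box -/
noncomputable def box (n : ℕ) : Finset G :=
  ((Finset.Icc (-(n : ℤ)) n) ×ˢ (Finset.Icc (-(n : ℤ)) n)).image fun z => (⟨z.1, z.2⟩ : G)

theorem card_box_le (n : ℕ) : #(box n) ≤ (2 * n + 1) ^ 2 := by
  refine Finset.card_image_le.trans ?_
  rw [Finset.card_product, Int.card_Icc]
  have : ((n : ℤ) + 1 - -(n : ℤ)).toNat = 2 * n + 1 := by omega
  rw [this, sq]

theorem card_box (n : ℕ) : #(box n) = (2 * n + 1) ^ 2 := by
  rw [box, Finset.card_image_of_injective]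
  · rw [Finset.card_product, Int.card_Icc]
    have : ((n : ℤ) + 1 - -(n : ℤ)).toNat = 2 * n + 1 := by omega
    rw [this, sq]
  · rintro ⟨a, b⟩ ⟨c, d⟩ h
    simp only [Zsqrtd.mk.injEq] at h
    exact Prod.ext h.1 h.2

theorem abs_le_of_sq (a : ℤ) (x : ℝ) (h : (a : ℝ) ^ 2 ≤ x) :
    -((⌊√x⌋₊ : ℕ) : ℤ) ≤ a ∧ a ≤ ((⌊√x⌋₊ : ℕ) : ℤ) := by
  have h1 : |(a : ℝ)| ≤ √x := Real.abs_le_sqrt h
  have h2 : a.natAbs ≤ ⌊√x⌋₊ := by
    apply Nat.le_floor
    rw [Nat.cast_natAbs]
    push_cast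
    exact h1
  omega

theorem mem_box_of (v : G) (x : ℝ) (h : (nm v : ℝ) ≤ x) : v ∈ box ⌊√x⌋₊ := by
  rw [nm_castR] at h
  have h1 := abs_le_of_sq v.re x (by nlinarith [sq_nonneg (v.im : ℝ)])
  have h2 := abs_le_of_sq v.im x (by nlinarith [sq_nonneg (v.re : ℝ)])
  rw [box, Finset.mem_image]
  refine ⟨(v.re, v.im), ?_, rfl⟩
  rw [Finset.mem_product, Finset.mem_Icc, Finset.mem_Icc]
  exact ⟨h1, h2⟩

theorem fin_disc (x : ℝ) : {v : G | (nm v : ℝ) ≤ x}.Finite :=
  (box ⌊√x⌋₊).finite_toSet.subset fun v hv => mem_box_of v x hv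

theorem mem_disc (v : G) (x : ℝ) : v ∈ disc x ↔ (nm v : ℝ) ≤ x := by
  rw [disc, dif_pos (fin_disc x), Set.Finite.mem_toFinset, Set.mem_ofPred_eq]

theorem card_disc (x : ℝ) (hx : 1 ≤ x) : (#(disc x) : ℝ) ≤ 9 * x := by
  have h1 : disc x ⊆ box ⌊√x⌋₊ := fun v hv => mem_box_of v x ((mem_disc v x).1 hv)
  have h2 : (#(disc x) : ℝ) ≤ ((2 * ⌊√x⌋₊ + 1) ^ 2 : ℕ) := by
    exact_mod_cast (Finset.card_le_card h1).trans (card_box_le _)
  have h3 : ((⌊√x⌋₊ : ℕ) : ℝ) ≤ √x := Nat.floor_le (Real.sqrt_nonneg x)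
  have h4 : 1 ≤ √x := by rw [Real.one_le_sqrt]; exact hx
  have h5 : √x ^ 2 = x := Real.sq_sqrt (by linarith)
  have h6 : (0 : ℝ) ≤ ((⌊√x⌋₊ : ℕ) : ℝ) := Nat.cast_nonneg _
  push_cast at h2
  nlinarith

/-- the sets of primes of norm at most `x` are finite in number -/
theorem fin_FF (h : SFAC) (x : ℝ) : {A : Finset Pr | (NN gN A : ℝ) ≤ x}.Finite := by
  have hone : Prm 1 := by simp [Prm]
  apply Set.Finite.of_finite_image (f := fun A : Finset Pr => ∏ p ∈ A, p.1)
  · apply (fin_disc x).subset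
    rintro v ⟨A, hA, rfl⟩
    simp only [Set.mem_ofPred_eq] at hA ⊢
    rw [nm_prod]
    exact hA
  · intro A _ B _ hAB
    have := h.2 1 1 A B hone hone (by simpa using hAB)
    exact this.2

theorem mem_FF (h : SFAC) (A : Finset Pr) (x : ℝ) : A ∈ FF gN x ↔ (NN gN A : ℝ) ≤ x := by
  rw [FF, dif_pos (fin_FF h x), Set.Finite.mem_toFinset, Set.mem_ofPred_eq]

theorem card_FF_le (h : SFAC) (x : ℝ) (hx : 1 ≤ x) : (#(FF gN x) : ℝ) ≤ 9 * x := by
  have hone : Prm 1 := by simp [Prm]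
  refine le_trans ?_ (card_disc x hx)
  have : #(FF gN x) ≤ #(disc x) := by
    apply Finset.card_le_card_of_injOn (fun A : Finset Pr => ∏ p ∈ A, p.1)
    · intro A hA
      rw [Finset.mem_coe, mem_FF h] at hA
      rw [Finset.mem_coe, mem_disc, nm_prod]
      exact hA
    · intro A _ B _ hAB
      have := h.2 1 1 A B hone hone (by simpa using hAB)
      exact this.2
  exact_mod_cast this

theorem nm_pos (t : G) (ht : Prm t) : 1 ≤ nm t := by
  rcases Nat.eq_zero_or_pos (nm t) with h | h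
  · exfalso
    have h1 := nm_cast t
    rw [h] at h1
    have hre : t.re ^ 2 = 0 := by
      push_cast at h1
      linarith [sq_nonneg t.re, sq_nonneg t.im]
    have him : t.im ^ 2 = 0 := by
      push_cast at h1
      linarith [sq_nonneg t.re, sq_nonneg t.im]
    have hre : t.re = 0 := by simpa using hre
    have him : t.im = 0 := by simpa using him
    obtain ⟨z, hz⟩ := ht
    have h2 := congrArg nm hz
    rw [nm_mul] at h2
    have h3 : nm (⟨2, 2⟩ : G) = 8 := by decide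
    have h4 : t = 0 := by ext <;> simp [hre, him]
    rw [h3, h4] at h2
    have h5 : nm ((0 : G) - 1) = 1 := by decide
    omega
  · exact h

open Classical in
/-- the primary elements of the disc, lower bound -/
theorem card_prm (x : ℝ) (hx : 36 ≤ x) :
    x / 16 ≤ (#((disc x).filter fun v => (⟨2, 2⟩ : G) ∣ v - 1) : ℝ) := by
  classical
  set n : ℕ := ⌊(√x - 1) / 4⌋₊ with hn
  have h6 : 6 ≤ √x := by
    apply Real.le_sqrt_of_sq_le; linarith
  have h5 : √x ^ 2 = x := Real.sq_sqrt (by linarith)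
  have hn1 : (n : ℝ) ≤ (√x - 1) / 4 := Nat.floor_le (by linarith)
  have hn2 : (√x - 1) / 4 < n + 1 := Nat.lt_floor_add_one _
  have hinj : #(box n) ≤ #((disc x).filter fun v => (⟨2, 2⟩ : G) ∣ v - 1) := by
    apply Finset.card_le_card_of_injOn (fun z : G => 1 + (⟨2, 2⟩ : G) * z)
    · intro z hz
      rw [Finset.mem_coe, box, Finset.mem_image] at hz
      obtain ⟨⟨a, b⟩, hab, rfl⟩ := hz
      rw [Finset.mem_product, Finset.mem_Icc, Finset.mem_Icc] at hab
      simp only at hab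
      obtain ⟨⟨ha1, ha2⟩, hb1, hb2⟩ := hab
      rw [Finset.mem_coe, Finset.mem_filter, mem_disc]
      refine ⟨?_, ⟨⟨a, b⟩, by ring⟩⟩
      rw [nm_castR]
      have e1 : (1 + (⟨2, 2⟩ : G) * ⟨a, b⟩ : G).re = 1 + (2 * a - 2 * b) := by
        simp [Zsqrtd.re_add, Zsqrtd.re_mul, Zsqrtd.re_one]; try ring
      have e2 : (1 + (⟨2, 2⟩ : G) * ⟨a, b⟩ : G).im = 2 * b + 2 * a := by
        simp [Zsqrtd.im_add, Zsqrtd.im_mul, Zsqrtd.im_one]
      rw [e1, e2]
      push_cast
      have ha1' : -(n : ℝ) ≤ a := by exact_mod_cast ha1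
      have ha2' : (a : ℝ) ≤ n := by exact_mod_cast ha2
      have hb1' : -(n : ℝ) ≤ b := by exact_mod_cast hb1
      have hb2' : (b : ℝ) ≤ n := by exact_mod_cast hb2
      have hn0 : (0 : ℝ) ≤ n := Nat.cast_nonneg _
      have hsx : 1 + 4 * (n : ℝ) ≤ √x := by linarith
      have hA : (a : ℝ) ^ 2 ≤ n ^ 2 := by nlinarith
      have hB : (b : ℝ) ^ 2 ≤ n ^ 2 := by nlinarith
      have key : (1 + (2 * (a : ℝ) - 2 * b)) ^ 2 + (2 * b + 2 * a) ^ 2 ≤ (1 + 4 * (n : ℝ)) ^ 2 := by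
        nlinarith
      have key2 : (1 + 4 * (n : ℝ)) ^ 2 ≤ x := by nlinarith
      linarith
    · intro z _ w _ hzw
      simp only [add_right_inj] at hzw
      have h22 : (⟨2, 2⟩ : G) ≠ 0 := by decide
      exact mul_left_cancel₀ h22 hzw
  rw [card_box] at hinj
  have h7 : (((2 * n + 1) ^ 2 : ℕ) : ℝ) ≤ (#((disc x).filter fun v => (⟨2, 2⟩ : G) ∣ v - 1) : ℝ) := by
    exact_mod_cast hinj
  push_cast at h7
  have h8 : √x / 4 ≤ 2 * (n : ℝ) + 1 := by linarith
  have h9 : x / 16 ≤ (2 * (n : ℝ) + 1) ^ 2 := by nlinarith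
  linarith

/-- summability -/
theorem summable_nm : Summable fun t : G => 1 / (nm t : ℝ) ^ 2 := by
  have h1 : Summable fun x : Fin 2 → ℤ => ‖x‖ ^ (-(4 : ℝ)) :=
    EisensteinSeries.summable_one_div_norm_rpow (by norm_num)
  let e : G ≃ (Fin 2 → ℤ) :=
    { toFun := fun t => ![t.re, t.im]
      invFun := fun x => ⟨x 0, x 1⟩
      left_inv := fun t => by simp
      right_inv := fun x => by ext i; fin_cases i <;> simp }
  have h2 : Summable fun t : G => ‖e t‖ ^ (-(4 : ℝ)) := (Equiv.summable_iff e).2 h1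
  refine Summable.of_nonneg_of_le (fun t => by positivity) (fun t => ?_) h2
  have hre : ‖e t‖ ^ 2 ≤ (nm t : ℝ) := by
    rw [nm_castR]
    have h3 : ‖e t‖ ≤ √((t.re : ℝ) ^ 2 + (t.im : ℝ) ^ 2) := by
      rw [pi_norm_le_iff_of_nonneg (Real.sqrt_nonneg _)]
      intro i
      fin_cases i
      · simp only [e]
        simp only [Equiv.coe_fn_mk, Fin.zero_eta, Matrix.cons_val_zero]
        rw [Int.norm_eq_abs]
        apply Real.abs_le_sqrt
        nlinarith [sq_nonneg (t.im : ℝ)]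
      · simp only [e]
        simp only [Equiv.coe_fn_mk, Fin.mk_one, Matrix.cons_val_one, Matrix.cons_val_fin_one]
        rw [Int.norm_eq_abs]
        apply Real.abs_le_sqrt
        nlinarith [sq_nonneg (t.re : ℝ)]
    have h4 := Real.sq_sqrt (show 0 ≤ (t.re : ℝ) ^ 2 + (t.im : ℝ) ^ 2 by positivity)
    nlinarith [norm_nonneg (e t), Real.sqrt_nonneg ((t.re : ℝ) ^ 2 + (t.im : ℝ) ^ 2)]
  by_cases h0 : (e t) = 0
  · have : t = 0 := by
      have := congrArg e.symm h0
      rw [Equiv.symm_apply_apply] at this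
      rw [this]
      rfl
    subst this
    have : nm 0 = 0 := by decide
    rw [this]
    simp
  · have hpos : 0 < ‖e t‖ := norm_pos_iff.2 h0
    rw [Real.rpow_neg hpos.le, one_div]
    apply inv_anti₀
    · positivity
    · have : ‖e t‖ ^ (4 : ℝ) = (‖e t‖ ^ 2) ^ 2 := by
        rw [← pow_mul]
        exact_mod_cast Real.rpow_natCast ‖e t‖ 4
      rw [this]
      have h5 : 0 ≤ ‖e t‖ ^ 2 := by positivity
      nlinarith

theorem t_A5 (h : SFAC) : A5 gN := by
  classical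
  obtain ⟨S, hS⟩ := (summable_iff_vanishing_norm.1 summable_nm) (1 / 288) (by norm_num)
  refine ⟨1 / (36 * ((#S : ℝ) + 1)), by positivity, fun x hx => ?_⟩
  have hc : (0 : ℝ) ≤ (#S : ℝ) := Nat.cast_nonneg _
  rcases lt_or_ge x 36 with hx36 | hx36
  · have hmem : (∅ : Finset Pr) ∈ FF gN x := by
      rw [mem_FF h]; simpa [NN] using hx
    have h1 : (1 : ℝ) ≤ (#(FF gN x) : ℝ) := by
      exact_mod_cast Finset.card_pos.2 ⟨_, hmem⟩
    refine le_trans ?_ h1
    rw [div_mul_eq_mul_div, div_le_one (by positivity)]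
    nlinarith
  · -- the main case
    have h1 := card_prm x hx36
    set T : Finset G := (disc x).filter (fun t => Prm t ∧ (nm t : ℝ) ^ 2 ≤ x) with hT
    have hcov : (disc x).filter (fun v => (⟨2, 2⟩ : G) ∣ v - 1) ⊆
        T.biUnion fun t => (FF gN (x / (nm t : ℝ) ^ 2)).image fun A => t ^ 2 * ∏ p ∈ A, p.1 := by
      intro v hv
      rw [Finset.mem_filter, mem_disc] at hv
      obtain ⟨t, A, ht, hv2⟩ := h.1 v hv.2
      have hnt := nm_pos t ht
      have hnt' : (1 : ℝ) ≤ (nm t : ℝ) := by exact_mod_cast hnt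
      have hnv : (nm v : ℝ) = (nm t : ℝ) ^ 2 * (NN gN A : ℝ) := by
        rw [hv2, nm_mul, nm_prod, pow_two, nm_mul]
        push_cast
        ring
      have hNA : 1 ≤ NN gN A := by
        rcases Nat.eq_zero_or_pos (NN gN A) with h0 | h0
        · exfalso
          have hv0 : nm v = 0 := by
            have : (nm v : ℝ) = 0 := by rw [hnv, h0]; simp
            exact_mod_cast this
          have := nm_pos v hv.2
          omega
        · exact h0
      have hNA' : (1 : ℝ) ≤ (NN gN A : ℝ) := by exact_mod_cast hNA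
      have hle := hv.1
      rw [hnv] at hle
      have hsq : (nm t : ℝ) ^ 2 ≤ x := by
        have : (0 : ℝ) ≤ (nm t : ℝ) ^ 2 := by positivity
        nlinarith
      rw [Finset.mem_biUnion]
      refine ⟨t, ?_, ?_⟩
      · rw [hT, Finset.mem_filter, mem_disc]
        refine ⟨?_, ht, hsq⟩
        nlinarith
      · rw [Finset.mem_image]
        refine ⟨A, ?_, hv2.symm⟩
        rw [mem_FF h, le_div_iff₀ (by positivity)]
        linarith
    have h2 : (#((disc x).filter fun v => (⟨2, 2⟩ : G) ∣ v - 1) : ℝ) ≤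
        ∑ t ∈ T, (#(FF gN (x / (nm t : ℝ) ^ 2)) : ℝ) := by
      have : #((disc x).filter fun v => (⟨2, 2⟩ : G) ∣ v - 1) ≤
          ∑ t ∈ T, #(FF gN (x / (nm t : ℝ) ^ 2)) :=
        (Finset.card_le_card hcov).trans (Finset.card_biUnion_le.trans
          (Finset.sum_le_sum fun t _ => Finset.card_image_le))
      exact_mod_cast this
    have h3 : ∑ t ∈ T, (#(FF gN (x / (nm t : ℝ) ^ 2)) : ℝ) =
        ∑ t ∈ T ∩ S, (#(FF gN (x / (nm t : ℝ) ^ 2)) : ℝ) +
          ∑ t ∈ T \ S, (#(FF gN (x / (nm t : ℝ) ^ 2)) : ℝ) :=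
      (Finset.sum_inter_add_sum_sdiff T S _).symm
    have h4 : ∑ t ∈ T ∩ S, (#(FF gN (x / (nm t : ℝ) ^ 2)) : ℝ) ≤ (#S : ℝ) * #(FF gN x) := by
      have : ∀ t ∈ T ∩ S, (#(FF gN (x / (nm t : ℝ) ^ 2)) : ℝ) ≤ (#(FF gN x) : ℝ) := by
        intro t ht
        rw [Finset.mem_inter, hT, Finset.mem_filter] at ht
        have hnt := nm_pos t ht.1.2.1
        have hnt' : (1 : ℝ) ≤ (nm t : ℝ) := by exact_mod_cast hnt
        have hsub : FF gN (x / (nm t : ℝ) ^ 2) ⊆ FF gN x := by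
          intro A hA
          rw [mem_FF h] at hA ⊢
          refine hA.trans (div_le_self (by linarith) ?_)
          nlinarith
        exact_mod_cast Finset.card_le_card hsub
      refine (Finset.sum_le_sum this).trans ?_
      rw [Finset.sum_const, nsmul_eq_mul]
      have : (#(T ∩ S) : ℝ) ≤ #S := by exact_mod_cast Finset.card_le_card Finset.inter_subset_right
      exact mul_le_mul_of_nonneg_right this (Nat.cast_nonneg _)
    have h5 : ∑ t ∈ T \ S, (#(FF gN (x / (nm t : ℝ) ^ 2)) : ℝ) ≤ 9 * x * (1 / 288) := by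
      have h51 : ∀ t ∈ T \ S, (#(FF gN (x / (nm t : ℝ) ^ 2)) : ℝ) ≤
          9 * x * (1 / (nm t : ℝ) ^ 2) := by
        intro t ht
        rw [Finset.mem_sdiff, hT, Finset.mem_filter] at ht
        have hnt := nm_pos t ht.1.2.1
        have hnt' : (1 : ℝ) ≤ (nm t : ℝ) := by exact_mod_cast hnt
        have := card_FF_le h (x / (nm t : ℝ) ^ 2) (by
          rw [one_le_div (by positivity)]; exact ht.1.2.2)
        refine this.trans (le_of_eq ?_)
        ring
      refine (Finset.sum_le_sum h51).trans ?_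
      rw [← Finset.mul_sum]
      have h52 := hS (T \ S) Finset.sdiff_disjoint
      rw [Real.norm_eq_abs] at h52
      have h53 := (le_abs_self _).trans h52.le
      exact mul_le_mul_of_nonneg_left h53 (by linarith)
    have h6 : x / 32 ≤ (#S : ℝ) * #(FF gN x) := by linarith
    have h7 : (0 : ℝ) ≤ (#(FF gN x) : ℝ) := Nat.cast_nonneg _
    rw [div_mul_eq_mul_div, div_le_iff₀ (by positivity)]
    nlinarith

end Pool.Agent.Y954.PP

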